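import Pool.Agent.N343.LT.Stm2

/-!
# The blow-up as a multigraph (job LT15)
-/

set_option autoImplicit false

namespace Pool.Agent.N901.LT.BLW

open Finset Pool.Agent.Helper929 Pool.Agent.H604R2.LEC Pool.Agent.Y819.ZF Pool.Agent.N343.LT.Defs
open Pool.Agent.N343.LT

theorem adj_iff {v k : ℕ} (a b : ZMod v) : (powC v k)ᶜ.Adj a b ↔ ¬ Near k a b := by
  rw [SimpleGraph.compl_adj, powC, SimpleGraph.fromRel_adj]
  constructor
  · rintro ⟨h1, h2⟩ ⟨j, hj, h3⟩
    rcases Nat.eq_zero_or_pos j with h0 | h0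
    · subst h0
      rcases h3 with h3 | h3
      · exact h1 (by simpa using h3.symm)
      · exact h1 (by simpa using h3)
    · apply h2
      refine ⟨h1, ?_⟩
      rcases h3 with h3 | h3
      · exact Or.inl ⟨j, h0, hj, h3⟩
      · exact Or.inr ⟨j, h0, hj, h3⟩
  · intro h
    refine ⟨?_, ?_⟩
    · intro hab
      exact h ⟨0, Nat.zero_le _, Or.inl (by simp [hab])⟩
    · rintro ⟨-, ⟨j, -, hj, h3⟩ | ⟨j, -, hj, h3⟩⟩
      · exact h ⟨j, hj, Or.inl h3⟩
      · exact h ⟨j, hj, Or.inr h3⟩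

theorem main : S_BLW := by
  classical
  intro v k m φ _ hφ hN
  funext x y
  have hA := adj_iff (v := v) (k := k) x.1 y.1
  have hB : (BlowUp v k m φ).Adj x y ↔
      (y.1 = φ x.1 ∧ x.1 = φ y.1 ∧ x.2 ≠ y.2) ∨ ¬ Near k x.1 y.1 := Iff.rfl
  have hx : y.1 = φ x.1 → x.1 = φ y.1 := fun h => by rw [h, hφ]
  have hy : y.1 = φ x.1 → Near k x.1 y.1 := fun h => by rw [h]; exact hN _
  unfold MI Pool.Agent.Y819.ZF.ind
  generalize (powC v k)ᶜ.Adj x.1 y.1 = P at *
  generalize (BlowUp v k m φ).Adj x y = Q at *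
  generalize Near k x.1 y.1 = R at *
  by_cases h1 : y.1 = φ x.1
  · have h2 := hx h1
    have h3 := hy h1
    by_cases h4 : x.2 ≠ y.2
    · have q1 : Q := by tauto
      have p1 : ¬ P := by tauto
      simp [q1, p1, h1, h4]
    · have q1 : ¬ Q := by tauto
      have p1 : ¬ P := by tauto
      push Not at h4
      simp [q1, p1, h4]
  · by_cases h3 : R
    · have q1 : ¬ Q := by tauto
      have p1 : ¬ P := by tauto
      simp [q1, p1, h1]
    · have q1 : Q := by tauto
      have p1 : P := by tauto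
      simp [q1, p1, h1]

end Pool.Agent.N901.LT.BLW
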